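import Pool.Agent.H74.G.R_seed8.W564.SC.Defs

/-!
# Smooth flows and time changes
-/

set_option autoImplicit false

open scoped Manifold ContDiff Topology NNReal
open Filter Set Metric

universe u

namespace Pool.Agent.TH290.CL

open Pool.Agent.H718R2.G Pool.Agent.W564.SC

/-- A smooth action of `ℝ` (a complete smooth flow). -/
structure IsFlow (n : ℕ) (N : Type*) [TopologicalSpace N] [ChartedSpace (V n) N]
    (ψ : ℝ → N → N) : Prop where
  smooth : ContMDiff (𝓘(ℝ, ℝ).prod (𝓡 n)) (𝓡 n) ∞ (fun q : ℝ × N => ψ q.1 q.2)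
  zero : ∀ y, ψ 0 y = y
  add : ∀ s t y, ψ (s + t) y = ψ s (ψ t y)

section

variable {n : ℕ} {N : Type u} [TopologicalSpace N] [ChartedSpace (V n) N] [IsManifold (𝓡 n) ∞ N]
  {ψ : ℝ → N → N} (hψ : IsFlow n N ψ) {E : Type*} [NormedAddCommGroup E] [NormedSpace ℝ E]
  {b : N → E} (hb : ContMDiff (𝓡 n) 𝓘(ℝ, E) ∞ b)

include hψ hb in
theorem loc_smooth (y₀ : N) (t₀ : ℝ) :
    ContDiffAt ℝ ∞ (fun q : ℝ × V n => b (ψ q.1 ((chartAt (V n) y₀).symm q.2)))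
      (t₀, chartAt (V n) y₀ y₀) := by
  rw [← contMDiffAt_iff_contDiffAt]
  have h1 : ContMDiffAt 𝓘(ℝ, ℝ × V n) 𝓘(ℝ, ℝ) ∞ (fun q : ℝ × V n => q.1)
      (t₀, chartAt (V n) y₀ y₀) := contDiffAt_fst.contMDiffAt
  have h2 : ContMDiffAt 𝓘(ℝ, ℝ × V n) (𝓡 n) ∞ (fun q : ℝ × V n => q.2)
      (t₀, chartAt (V n) y₀ y₀) := contDiffAt_snd.contMDiffAt
  have h3 : ContMDiffAt (𝓡 n) (𝓡 n) ∞ (chartAt (V n) y₀).symm (chartAt (V n) y₀ y₀) := by
    have h4 : ContMDiffOn (𝓡 n) (𝓡 n) ∞ (chartAt (V n) y₀).symm (chartAt (V n) y₀).target :=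
      contMDiffOn_symm_of_mem_maximalAtlas (IsManifold.chart_mem_maximalAtlas y₀)
    exact h4.contMDiffAt ((chartAt (V n) y₀).open_target.mem_nhds
      ((chartAt (V n) y₀).map_source (mem_chart_source _ y₀)))
  have h5 : ContMDiffAt 𝓘(ℝ, ℝ × V n) (𝓡 n) ∞
      (fun q : ℝ × V n => (chartAt (V n) y₀).symm q.2) (t₀, chartAt (V n) y₀ y₀) :=
    ContMDiffAt.comp (g := (chartAt (V n) y₀).symm) (f := fun q : ℝ × V n => q.2) _ h3 h2
  have h6 : ContMDiffAt 𝓘(ℝ, ℝ × V n) (𝓘(ℝ, ℝ).prod (𝓡 n)) ∞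
      (fun q : ℝ × V n => (q.1, (chartAt (V n) y₀).symm q.2)) (t₀, chartAt (V n) y₀ y₀) :=
    h1.prodMk h5
  have h7 : ContMDiffAt 𝓘(ℝ, ℝ × V n) (𝓡 n) ∞
      (fun q : ℝ × V n => ψ q.1 ((chartAt (V n) y₀).symm q.2)) (t₀, chartAt (V n) y₀ y₀) :=
    ContMDiffAt.comp (g := fun q : ℝ × N => ψ q.1 q.2)
      (f := fun q : ℝ × V n => (q.1, (chartAt (V n) y₀).symm q.2)) _ hψ.smooth.contMDiffAt h6
  exact ContMDiffAt.comp (g := b)
    (f := fun q : ℝ × V n => ψ q.1 ((chartAt (V n) y₀).symm q.2)) _ hb.contMDiffAt h7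

include hψ hb in
theorem line_smooth (y : N) : ContDiff ℝ ∞ (fun t : ℝ => b (ψ t y)) := by
  rw [contDiff_iff_contDiffAt]
  intro t₀
  have h1 := loc_smooth hψ hb y t₀
  have h2 : ContDiffAt ℝ ∞ (fun t : ℝ => ((t, chartAt (V n) y y) : ℝ × V n)) t₀ :=
    contDiffAt_id.prodMk contDiffAt_const
  have h3 := ContDiffAt.comp (f := fun t : ℝ => ((t, chartAt (V n) y y) : ℝ × V n)) t₀ h1 h2
  refine h3.congr_of_eventuallyEq (Eventually.of_forall fun t => ?_)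
  show b (ψ t y) = b (ψ t ((chartAt (V n) y).symm (chartAt (V n) y y)))
  rw [(chartAt (V n) y).left_inv (mem_chart_source _ y)]

include hψ hb in
/-- Smooth functions are uniformly Lipschitz along the flow lines. -/
theorem flow_lip [CompactSpace N] :
    ∃ L : ℝ≥0, ∀ y : N, LipschitzWith L (fun t : ℝ => b (ψ t y)) := by
  have key : ∃ (L : ℝ≥0) (δ : ℝ), 0 < δ ∧ ∀ y ∈ (univ : Set N), ∀ t, |t| < δ →
      ‖b (ψ t y) - b (ψ 0 y)‖ ≤ L * |t| := by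
    refine isCompact_univ.induction_on (p := fun O : Set N => ∃ (L : ℝ≥0) (δ : ℝ), 0 < δ ∧
      ∀ y ∈ O, ∀ t, |t| < δ → ‖b (ψ t y) - b (ψ 0 y)‖ ≤ L * |t|) ?_ ?_ ?_ ?_
    · exact ⟨0, 1, one_pos, fun y hy => absurd hy (notMem_empty y)⟩
    · rintro s t hst ⟨L, δ, hδ, h⟩
      exact ⟨L, δ, hδ, fun y hy => h y (hst hy)⟩
    · rintro s t ⟨L, δ, hδ, h⟩ ⟨L', δ', hδ', h'⟩
      refine ⟨max L L', min δ δ', lt_min hδ hδ', ?_⟩
      rintro y (hy | hy) u hu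
      · refine (h y hy u (hu.trans_le (min_le_left _ _))).trans ?_
        exact mul_le_mul_of_nonneg_right (NNReal.coe_le_coe.2 (le_max_left _ _)) (abs_nonneg _)
      · refine (h' y hy u (hu.trans_le (min_le_right _ _))).trans ?_
        exact mul_le_mul_of_nonneg_right (NNReal.coe_le_coe.2 (le_max_right _ _)) (abs_nonneg _)
    · intro y₀ _
      obtain ⟨L, s, hs, hL⟩ :=
        ((loc_smooth hψ hb y₀ 0).of_le (by exact_mod_cast le_top : (1 : WithTop ℕ∞) ≤ ∞)).exists_lipschitzOnWith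
      rw [nhds_prod_eq] at hs
      obtain ⟨s1, hs1, s2, hs2, hs12⟩ := Filter.mem_prod_iff.1 hs
      obtain ⟨δ, hδ, hδ2⟩ := Metric.mem_nhds_iff.1 hs1
      refine ⟨(chartAt (V n) y₀).source ∩ (chartAt (V n) y₀) ⁻¹' s2, ?_, L, δ, hδ, ?_⟩
      · apply mem_nhdsWithin_of_mem_nhds
        exact inter_mem (chart_source_mem_nhds _ y₀)
          ((chartAt (V n) y₀).continuousAt (mem_chart_source _ y₀) |>.preimage_mem_nhds hs2)
      · rintro y ⟨hy1, hy2⟩ t ht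
        have m1 : ((t, chartAt (V n) y₀ y) : ℝ × V n) ∈ s := hs12 ⟨hδ2 (by
          rw [mem_ball, dist_zero_right, Real.norm_eq_abs]
          exact ht), hy2⟩
        have m2 : (((0 : ℝ), chartAt (V n) y₀ y) : ℝ × V n) ∈ s := hs12 ⟨mem_of_mem_nhds hs1, hy2⟩
        have h1 := hL.dist_le_mul _ m1 _ m2
        simp only [(chartAt (V n) y₀).left_inv hy1] at h1
        rw [dist_eq_norm, dist_eq_norm, Prod.mk_sub_mk, sub_self, sub_zero, Prod.norm_def] at h1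
        simpa using h1
  obtain ⟨L, δ, hδ, h⟩ := key
  refine ⟨L, fun y => ?_⟩
  have hd : Differentiable ℝ (fun t : ℝ => b (ψ t y)) :=
    (line_smooth hψ hb y).differentiable (by simp)
  apply lipschitzWith_of_nnnorm_deriv_le hd
  intro t
  rw [← NNReal.coe_le_coe, coe_nnnorm]
  apply norm_deriv_le_of_lip' L.2
  have hev : ∀ᶠ u in 𝓝 t, |u - t| < δ := by
    filter_upwards [Metric.ball_mem_nhds t hδ] with u hu
    exact hu
  filter_upwards [hev] with u hu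
  have h1 := h (ψ t y) (mem_univ _) (u - t) hu
  rw [← hψ.add, ← hψ.add, sub_add_cancel, zero_add] at h1
  exact h1

end

end Pool.Agent.TH290.CL
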